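import Mathlib
import Pool.Agent.Helper6.ER.Defs

/-! ER-4: characters modulo `d` grouped by their conductor. -/

namespace Pool.Agent.Helper6.ER

open Finset

namespace Cond

lemma sum_moebius (n : ℕ) :
    ∑ e ∈ n.divisors, ArithmeticFunction.moebius e = if n = 1 then 1 else 0 := by
  rw [← ArithmeticFunction.coe_mul_zeta_apply, ArithmeticFunction.moebius_mul_coe_zeta,
    ArithmeticFunction.one_apply]

lemma indicator_coprime {N : ℕ} (hN : N ≠ 0) (m : ℕ) :
    ∑ e ∈ N.divisors, (if e ∣ m then ((ArithmeticFunction.moebius e : ℤ) : ℂ) else 0) =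
      if Nat.Coprime m N then 1 else 0 := by
  rw [← Finset.sum_filter]
  have h1 : N.divisors.filter (fun e => e ∣ m) = (Nat.gcd m N).divisors := by
    ext e
    simp only [mem_filter, Nat.mem_divisors]
    constructor
    · rintro ⟨⟨h1, _⟩, h2⟩
      exact ⟨Nat.dvd_gcd h2 h1, Nat.gcd_ne_zero_right hN⟩
    · rintro ⟨h1, _⟩
      exact ⟨⟨h1.trans (Nat.gcd_dvd_right _ _), hN⟩, h1.trans (Nat.gcd_dvd_left _ _)⟩
  rw [h1, ← Int.cast_sum, sum_moebius]
  unfold Nat.Coprime
  split_ifs <;> simp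

lemma sum_multiples (F : ℕ → ℂ) (a b : ℕ) {e : ℕ} (he : 0 < e) :
    ∑ m ∈ (Ioc a b).filter (fun m => e ∣ m), F m = ∑ m ∈ Ioc (a / e) (b / e), F (e * m) := by
  have h1 : (Ioc a b).filter (fun m => e ∣ m) = (Ioc (a / e) (b / e)).image (fun m => e * m) := by
    ext m
    simp only [mem_filter, mem_Ioc, mem_image]
    constructor
    · rintro ⟨⟨h1, h2⟩, c, rfl⟩
      refine ⟨c, ⟨?_, ?_⟩, rfl⟩
      · rw [Nat.div_lt_iff_lt_mul he, mul_comm]
        exact h1
      · rw [Nat.le_div_iff_mul_le he, mul_comm]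
        exact h2
    · rintro ⟨c, ⟨h1, h2⟩, rfl⟩
      rw [Nat.div_lt_iff_lt_mul he, mul_comm] at h1
      rw [Nat.le_div_iff_mul_le he, mul_comm] at h2
      exact ⟨⟨h1, h2⟩, dvd_mul_right _ _⟩
  rw [h1, Finset.sum_image]
  intro x _ y _ hxy
  exact Nat.eq_of_mul_eq_mul_left he hxy

lemma sum_coprime {f : ℕ} (ψ : DirichletCharacter ℂ f) (a b : ℕ) {N : ℕ} (hN : N ≠ 0) :
    ‖∑ m ∈ (Ioc a b).filter (fun m => Nat.Coprime m N), ψ (m : ZMod f)‖ ≤
      ∑ e ∈ N.divisors, ‖∑ m ∈ Ioc (a / e) (b / e), ψ (m : ZMod f)‖ := by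
  have h1 : ∑ m ∈ (Ioc a b).filter (fun m => Nat.Coprime m N), ψ (m : ZMod f) =
      ∑ e ∈ N.divisors, ((ArithmeticFunction.moebius e : ℤ) : ℂ) * (ψ (e : ZMod f) *
        ∑ m ∈ Ioc (a / e) (b / e), ψ (m : ZMod f)) := by
    rw [Finset.sum_filter]
    calc ∑ m ∈ Ioc a b, (if Nat.Coprime m N then ψ (m : ZMod f) else 0)
        = ∑ m ∈ Ioc a b, ∑ e ∈ N.divisors,
            (if e ∣ m then ((ArithmeticFunction.moebius e : ℤ) : ℂ) else 0) * ψ (m : ZMod f) := by
          refine Finset.sum_congr rfl fun m _ => ?_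
          rw [← Finset.sum_mul, indicator_coprime hN]
          split_ifs <;> simp
      _ = ∑ e ∈ N.divisors, ∑ m ∈ Ioc a b,
            (if e ∣ m then ((ArithmeticFunction.moebius e : ℤ) : ℂ) else 0) * ψ (m : ZMod f) :=
          Finset.sum_comm
      _ = _ := by
          refine Finset.sum_congr rfl fun e he => ?_
          have he0 : 0 < e := Nat.pos_of_mem_divisors he
          have h2 : ∀ m ∈ Ioc a b,
              (if e ∣ m then ((ArithmeticFunction.moebius e : ℤ) : ℂ) else 0) * ψ (m : ZMod f) =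
              if e ∣ m then ((ArithmeticFunction.moebius e : ℤ) : ℂ) * ψ (m : ZMod f) else 0 := by
            intro m _
            split_ifs <;> simp
          rw [Finset.sum_congr rfl h2, ← Finset.sum_filter,
            sum_multiples (fun m => ((ArithmeticFunction.moebius e : ℤ) : ℂ) * ψ (m : ZMod f))
              a b he0, Finset.mul_sum, Finset.mul_sum]
          refine Finset.sum_congr rfl fun m _ => ?_
          rw [Nat.cast_mul, map_mul]
  rw [h1]
  refine (norm_sum_le _ _).trans (Finset.sum_le_sum fun e _ => ?_)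
  rw [norm_mul, norm_mul]
  have h2 : ‖((ArithmeticFunction.moebius e : ℤ) : ℂ)‖ ≤ 1 := by
    rw [Complex.norm_intCast]
    exact_mod_cast ArithmeticFunction.abs_moebius_le_one (n := e)
  have h3 : ‖ψ (e : ZMod f)‖ ≤ 1 := DirichletCharacter.norm_le_one ψ _
  have h4 := norm_nonneg (∑ m ∈ Ioc (a / e) (b / e), ψ (m : ZMod f))
  calc _ ≤ 1 * (1 * ‖∑ m ∈ Ioc (a / e) (b / e), ψ (m : ZMod f)‖) := by
        refine mul_le_mul h2 (mul_le_mul_of_nonneg_right h3 h4) (by positivity) zero_le_one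
    _ = _ := by ring

lemma apply_eq {d : ℕ} (χ : DirichletCharacter ℂ d) (m : ℕ) :
    χ (m : ZMod d) = if Nat.Coprime m d then χ.primitiveCharacter (m : ZMod χ.conductor)
      else 0 := by
  split_ifs with h
  · have h1 : IsCoprime (m : ℤ) (d : ℤ) := Nat.isCoprime_iff_coprime.2 h
    have h2 := DirichletCharacter.primitiveCharacter_apply_of_isCoprime χ h1
    simpa using h2.symm
  · have h1 : ¬ IsCoprime (m : ℤ) (d : ℤ) := fun h' => h (Nat.isCoprime_iff_coprime.1 h')
    have h2 := (DirichletCharacter.apply_eq_zero_iff χ (m : ℤ)).2 h1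
    simpa using h2

lemma sum_MM {d : ℕ} (hd : 1 ≤ d) (χ : DirichletCharacter ℂ d) (M R : ℕ) :
    ∑ m ∈ MM M R, χ (m : ZMod d) =
      ∑ m ∈ (Ioc M (2 * M)).filter (fun m => Nat.Coprime m (R * (d / χ.conductor))),
        χ.primitiveCharacter (m : ZMod χ.conductor) := by
  have hdvd := DirichletCharacter.conductor_dvd_level χ
  unfold MM
  rw [Finset.sum_filter, Finset.sum_filter]
  refine Finset.sum_congr rfl fun m _ => ?_
  rw [apply_eq χ m]
  by_cases hR : Nat.Coprime m R
  · rw [if_pos hR]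
    by_cases hf : Nat.Coprime m χ.conductor
    · have h1 : Nat.Coprime m d ↔ Nat.Coprime m (R * (d / χ.conductor)) := by
        rw [Nat.coprime_mul_iff_right]
        constructor
        · intro h
          exact ⟨hR, h.coprime_dvd_right (Nat.div_dvd_of_dvd hdvd)⟩
        · rintro ⟨_, h⟩
          have h2 := Nat.Coprime.mul_right hf h
          rwa [Nat.mul_div_cancel' hdvd] at h2
      by_cases h : Nat.Coprime m d
      · rw [if_pos h, if_pos (h1.1 h)]
      · rw [if_neg h, if_neg (fun h' => h (h1.2 h'))]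
    · have h1 : χ.primitiveCharacter (m : ZMod χ.conductor) = 0 := by
        have h2 : ¬ IsCoprime (m : ℤ) (χ.conductor : ℤ) :=
          fun h' => hf (Nat.isCoprime_iff_coprime.1 h')
        have h3 := (DirichletCharacter.apply_eq_zero_iff χ.primitiveCharacter (m : ℤ)).2 h2
        simpa using h3
      rw [h1]
      simp
  · rw [if_neg hR, if_neg]
    intro h
    exact hR (Nat.Coprime.coprime_mul_right_right h)

end Cond

open Cond

/-- ER-4 -/
theorem conductor_decomp (d : ℕ) (hd : 1 ≤ d) (M R : ℕ) (hR : 1 ≤ R) (P : Finset ℕ)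
    (hP : ∀ p ∈ P, Nat.Coprime p d) :
    EC M R P d ≤ ∑ f ∈ d.divisors.erase 1, ∑ ψ ∈ prim f,
      (∑ e ∈ (R * (d / f)).divisors, ‖∑ m ∈ Ioc (M / e) (2 * M / e), ψ (m : ZMod f)‖) *
        ‖∑ p ∈ P, ψ (p : ZMod f)‖ := by
  classical
  haveI : NeZero d := ⟨by omega⟩
  let h : (Σ f : ℕ, DirichletCharacter ℂ f) → ℝ := fun t =>
    (∑ e ∈ (R * (d / t.1)).divisors, ‖∑ m ∈ Ioc (M / e) (2 * M / e), t.2 (m : ZMod t.1)‖) *
        ‖∑ p ∈ P, t.2 (p : ZMod t.1)‖
  have hh : ∀ t, 0 ≤ h t := fun t =>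
    mul_nonneg (Finset.sum_nonneg fun _ _ => norm_nonneg _) (norm_nonneg _)
  let i : DirichletCharacter ℂ d → (Σ f : ℕ, DirichletCharacter ℂ f) := fun χ =>
    ⟨χ.conductor, χ.primitiveCharacter⟩
  have hi : Function.Injective i := by
    let F : (Σ f : ℕ, DirichletCharacter ℂ f) → DirichletCharacter ℂ d := fun t =>
      if h : t.1 ∣ d then DirichletCharacter.changeLevel h t.2 else 1
    have hF : ∀ χ, F (i χ) = χ := by
      intro χ
      have hdvd := DirichletCharacter.conductor_dvd_level χ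
      simp only [F, i]
      rw [dif_pos hdvd]
      exact DirichletCharacter.changeLevel_primitiveCharacter χ
    exact Function.LeftInverse.injective hF
  have hbound : ∀ χ ∈ nontriv d,
      ‖∑ m ∈ MM M R, χ (m : ZMod d)‖ * ‖∑ p ∈ P, χ (p : ZMod d)‖ ≤ h (i χ) := by
    intro χ _
    have hdvd := DirichletCharacter.conductor_dvd_level χ
    have hN : R * (d / χ.conductor) ≠ 0 := by
      refine Nat.mul_ne_zero (by omega) ?_
      exact (Nat.div_pos (Nat.le_of_dvd (by omega) hdvd)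
        (Nat.pos_of_ne_zero (DirichletCharacter.conductor_ne_zero χ))).ne'
    have h1 : ∑ p ∈ P, χ (p : ZMod d) = ∑ p ∈ P, χ.primitiveCharacter (p : ZMod χ.conductor) :=
      Finset.sum_congr rfl fun p hp => by rw [apply_eq χ p, if_pos (hP p hp)]
    rw [h1, sum_MM hd χ M R]
    exact mul_le_mul_of_nonneg_right (sum_coprime χ.primitiveCharacter M (2 * M) hN)
      (norm_nonneg _)
  have hmem : ∀ χ ∈ nontriv d, i χ ∈ (d.divisors.erase 1).sigma prim := by
    intro χ hχ
    rw [Finset.mem_sigma]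
    refine ⟨?_, ?_⟩
    · rw [Finset.mem_erase, Nat.mem_divisors]
      refine ⟨?_, DirichletCharacter.conductor_dvd_level χ, by omega⟩
      intro h1
      exact mem_nontriv.1 hχ (DirichletCharacter.eq_one_iff_conductor_eq_one.2 h1)
    · exact mem_prim.2 (DirichletCharacter.primitiveCharacter_isPrimitive χ)
  have hR' : ∑ f ∈ d.divisors.erase 1, ∑ ψ ∈ prim f,
      (∑ e ∈ (R * (d / f)).divisors, ‖∑ m ∈ Ioc (M / e) (2 * M / e), ψ (m : ZMod f)‖) *
        ‖∑ p ∈ P, ψ (p : ZMod f)‖ = ∑ t ∈ (d.divisors.erase 1).sigma prim, h t := by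
    rw [Finset.sum_sigma]
  rw [hR']
  unfold EC
  calc _ ≤ ∑ χ ∈ nontriv d, h (i χ) := Finset.sum_le_sum hbound
    _ = ∑ t ∈ (nontriv d).image i, h t := by
        rw [Finset.sum_image]
        exact fun x _ y _ hxy => hi hxy
    _ ≤ _ := by
        refine Finset.sum_le_sum_of_subset_of_nonneg ?_ fun t _ _ => hh t
        intro t ht
        obtain ⟨χ, hχ, rfl⟩ := Finset.mem_image.1 ht
        exact hmem χ hχ

end Pool.Agent.Helper6.ER
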