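import Pool.Agent.Helper6.ER.Defs
import Pool.Agent.Helper31.ER.Cond
import Pool.Agent.Helper16.ER.TauPhi

/-! ER-6: the large sieve type bound for the character sums, on average over the modulus. -/

namespace Pool.Agent.Helper6.ER

open Finset

namespace BV

lemma card_divisors_mul_le (R g : ℕ) :
    (R * g).divisors.card ≤ R.divisors.card * g.divisors.card := by
  classical
  rw [Nat.divisors_mul]
  exact Finset.card_mul_le

/-- `bv_lite` from the bilinear inequality -/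
theorem bv_lite_of (hib : ∃ C : ℝ, 0 < C ∧ ∀ (D M X a b : ℕ) (P : Finset ℕ), 1 ≤ D → 1 ≤ M →
    b ≤ 2 * M → 16 * D ^ 2 ≤ X → (∀ p ∈ P, 1 ≤ p ∧ p ≤ X) →
    ∑ f ∈ Icc 2 D, (1 / (f.totient : ℝ)) * ∑ ψ ∈ prim f,
        ‖∑ m ∈ Ioc a b, ψ (m : ZMod f)‖ * ‖∑ p ∈ P, ψ (p : ZMod f)‖ ≤
      C * (1 + Real.log D) * (M : ℝ) ^ (3 / 4 : ℝ) * Real.sqrt (X * P.card)) :
    ∃ C : ℝ, 0 < C ∧ ∀ (D M X R : ℕ) (P : Finset ℕ), 1 ≤ D → 1 ≤ M → 1 ≤ R →
    16 * D ^ 2 ≤ X → (∀ p ∈ P, p.Prime ∧ D < p ∧ p ≤ X) →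
    ∑ d ∈ (Icc 1 D).filter Squarefree, (1 / (d.totient : ℝ)) * EC M R P d ≤
      C * R.divisors.card * (1 + Real.log D) ^ 3 * (M : ℝ) ^ (3 / 4 : ℝ) *
        Real.sqrt (X * P.card) := by
  classical
  obtain ⟨C₁, hC₁, h3⟩ := hib
  obtain ⟨C₂, hC₂, h5⟩ := sum_tau_phi
  refine ⟨C₁ * C₂, mul_pos hC₁ hC₂, ?_⟩
  intro D M X R P hD hM hR hX hP
  set B : ℝ := C₁ * (1 + Real.log D) * (M : ℝ) ^ (3 / 4 : ℝ) * Real.sqrt (X * P.card) with hB
  have hlog : 0 ≤ Real.log D := Real.log_nonneg (by exact_mod_cast hD)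
  have hB0 : 0 ≤ B := by positivity
  -- the summand
  let T : ℕ → ℕ → ℝ := fun g f => (1 / (g.totient : ℝ)) * ((1 / (f.totient : ℝ)) * ∑ ψ ∈ prim f,
    (∑ e ∈ (R * g).divisors, ‖∑ m ∈ Ioc (M / e) (2 * M / e), ψ (m : ZMod f)‖) *
        ‖∑ p ∈ P, ψ (p : ZMod f)‖)
  have hT : ∀ g f, 0 ≤ T g f := by
    intro g f
    refine mul_nonneg (by positivity) (mul_nonneg (by positivity) (Finset.sum_nonneg fun ψ _ => ?_))
    exact mul_nonneg (Finset.sum_nonneg fun _ _ => norm_nonneg _) (norm_nonneg _)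
  -- one modulus
  have h1 : ∀ d ∈ (Icc 1 D).filter Squarefree, (1 / (d.totient : ℝ)) * EC M R P d ≤
      ∑ f ∈ d.divisors.erase 1, T (d / f) f := by
    intro d hd
    rw [mem_filter, mem_Icc] at hd
    obtain ⟨⟨hd1, hdD⟩, hsq⟩ := hd
    have hPd : ∀ p ∈ P, Nat.Coprime p d := by
      intro p hp
      obtain ⟨hpp, hDp, _⟩ := hP p hp
      refine (Nat.Prime.coprime_iff_not_dvd hpp).2 fun hdvd => ?_
      have := Nat.le_of_dvd (by omega) hdvd
      omega
    have h4 := conductor_decomp d hd1 M R hR P hPd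
    calc (1 / (d.totient : ℝ)) * EC M R P d
        ≤ (1 / (d.totient : ℝ)) * ∑ f ∈ d.divisors.erase 1, ∑ ψ ∈ prim f,
          (∑ e ∈ (R * (d / f)).divisors, ‖∑ m ∈ Ioc (M / e) (2 * M / e), ψ (m : ZMod f)‖) *
          ‖∑ p ∈ P, ψ (p : ZMod f)‖ := mul_le_mul_of_nonneg_left h4 (by positivity)
      _ = ∑ f ∈ d.divisors.erase 1, T (d / f) f := by
          rw [Finset.mul_sum]
          refine Finset.sum_congr rfl fun f hf => ?_
          have hfd : f ∣ d := Nat.dvd_of_mem_divisors (Finset.mem_of_mem_erase hf)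
          have hcop : Nat.Coprime f (d / f) := by
            have h6 : Squarefree (f * (d / f)) := by rwa [Nat.mul_div_cancel' hfd]
            exact Nat.coprime_of_squarefree_mul h6
          have h7 : (d.totient : ℝ) = ((d / f).totient : ℝ) * (f.totient : ℝ) := by
            have h8 : d.totient = f.totient * (d / f).totient := by
              rw [← Nat.totient_mul hcop, Nat.mul_div_cancel' hfd]
            rw [h8]
            push_cast
            ring
          simp only [T]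
          rw [h7, one_div_mul_eq_div, one_div_mul_eq_div, one_div_mul_eq_div]
          rw [div_div, mul_comm ((d / f).totient : ℝ)]
  -- regroup
  have h2 : ∑ d ∈ (Icc 1 D).filter Squarefree, ∑ f ∈ d.divisors.erase 1, T (d / f) f ≤
      ∑ g ∈ (Icc 1 D).filter Squarefree, ∑ f ∈ Icc 2 D, T g f := by
    rw [← Finset.sum_product' ((Icc 1 D).filter Squarefree) (Icc 2 D) T]
    rw [Finset.sum_sigma' ((Icc 1 D).filter Squarefree) (fun d => d.divisors.erase 1)
      (fun d f => T (d / f) f)]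
    let i : (Σ _ : ℕ, ℕ) → ℕ × ℕ := fun t => (t.1 / t.2, t.2)
    have hinj : Set.InjOn i (((Icc 1 D).filter Squarefree).sigma
        (fun d => d.divisors.erase 1) : Finset (Σ _ : ℕ, ℕ)) := by
      rintro ⟨d, f⟩ hdf ⟨d', f'⟩ hdf' h
      simp only [coe_sigma, Set.mem_sigma_iff, mem_coe] at hdf hdf'
      have hfd : f ∣ d := Nat.dvd_of_mem_divisors (Finset.mem_of_mem_erase hdf.2)
      have hfd' : f' ∣ d' := Nat.dvd_of_mem_divisors (Finset.mem_of_mem_erase hdf'.2)
      simp only [i, Prod.mk.injEq] at h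
      obtain ⟨h6, h7⟩ := h
      subst h7
      have h8 : d = d' := by
        rw [← Nat.div_mul_cancel hfd, ← Nat.div_mul_cancel hfd', h6]
      subst h8
      rfl
    calc ∑ t ∈ ((Icc 1 D).filter Squarefree).sigma (fun d => d.divisors.erase 1),
          T (t.1 / t.2) t.2
        = ∑ t ∈ (((Icc 1 D).filter Squarefree).sigma (fun d => d.divisors.erase 1)).image i,
            T t.1 t.2 := by
          rw [Finset.sum_image hinj]
      _ ≤ _ := by
          refine Finset.sum_le_sum_of_subset_of_nonneg ?_ fun t _ _ => hT _ _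
          intro t ht
          obtain ⟨⟨d, f⟩, hdf, rfl⟩ := Finset.mem_image.1 ht
          rw [mem_sigma] at hdf
          obtain ⟨hd, hf⟩ := hdf
          simp only at hd hf
          rw [mem_filter, mem_Icc] at hd
          obtain ⟨⟨hd1, hdD⟩, hsq⟩ := hd
          rw [mem_erase, Nat.mem_divisors] at hf
          obtain ⟨hf1, hfd, _⟩ := hf
          have hfpos : 0 < f := Nat.pos_of_dvd_of_pos hfd (by omega)
          have hfle : f ≤ d := Nat.le_of_dvd (by omega) hfd
          have hg1 : 0 < d / f := Nat.div_pos hfle hfpos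
          have hg2 : d / f ≤ d := Nat.div_le_self _ _
          simp only [i, mem_product, mem_filter, mem_Icc]
          exact ⟨⟨⟨by omega, by omega⟩, hsq.squarefree_of_dvd (Nat.div_dvd_of_dvd hfd)⟩,
            by omega, by omega⟩
  -- the inner sums
  have h6 : ∀ g ∈ (Icc 1 D).filter Squarefree, ∑ f ∈ Icc 2 D, T g f ≤
      B * R.divisors.card * ((g.divisors.card : ℝ) / g.totient) := by
    intro g hg
    have e1 : ∑ f ∈ Icc 2 D, T g f = (1 / (g.totient : ℝ)) * ∑ e ∈ (R * g).divisors,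
        ∑ f ∈ Icc 2 D, (1 / (f.totient : ℝ)) * ∑ ψ ∈ prim f,
          ‖∑ m ∈ Ioc (M / e) (2 * M / e), ψ (m : ZMod f)‖ * ‖∑ p ∈ P, ψ (p : ZMod f)‖ := by
      simp only [T]
      rw [← Finset.mul_sum, Finset.sum_comm]
      congr 1
      refine Finset.sum_congr rfl fun f _ => ?_
      rw [← Finset.mul_sum]
      congr 1
      rw [Finset.sum_comm]
      refine Finset.sum_congr rfl fun ψ _ => ?_
      rw [Finset.sum_mul]
    rw [e1]
    have e2 : ∀ e ∈ (R * g).divisors, ∑ f ∈ Icc 2 D, (1 / (f.totient : ℝ)) * ∑ ψ ∈ prim f,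
          ‖∑ m ∈ Ioc (M / e) (2 * M / e), ψ (m : ZMod f)‖ * ‖∑ p ∈ P, ψ (p : ZMod f)‖ ≤ B := by
      intro e _
      refine h3 D M X (M / e) (2 * M / e) P hD hM (Nat.div_le_self _ _) hX fun p hp => ?_
      exact ⟨(hP p hp).1.one_le, (hP p hp).2.2⟩
    calc (1 / (g.totient : ℝ)) * ∑ e ∈ (R * g).divisors,
        ∑ f ∈ Icc 2 D, (1 / (f.totient : ℝ)) * ∑ ψ ∈ prim f,
          ‖∑ m ∈ Ioc (M / e) (2 * M / e), ψ (m : ZMod f)‖ * ‖∑ p ∈ P, ψ (p : ZMod f)‖
        ≤ (1 / (g.totient : ℝ)) * ∑ e ∈ (R * g).divisors, B :=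
          mul_le_mul_of_nonneg_left (Finset.sum_le_sum e2) (by positivity)
      _ = (1 / (g.totient : ℝ)) * (((R * g).divisors.card : ℝ) * B) := by
          rw [Finset.sum_const, nsmul_eq_mul]
      _ ≤ (1 / (g.totient : ℝ)) * (((R.divisors.card : ℝ) * g.divisors.card) * B) := by
          refine mul_le_mul_of_nonneg_left (mul_le_mul_of_nonneg_right ?_ hB0) (by positivity)
          exact_mod_cast card_divisors_mul_le R g
      _ = _ := by ring
  calc ∑ d ∈ (Icc 1 D).filter Squarefree, (1 / (d.totient : ℝ)) * EC M R P d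
      ≤ ∑ d ∈ (Icc 1 D).filter Squarefree, ∑ f ∈ d.divisors.erase 1, T (d / f) f :=
        Finset.sum_le_sum h1
    _ ≤ _ := h2
    _ ≤ ∑ g ∈ (Icc 1 D).filter Squarefree,
          B * R.divisors.card * ((g.divisors.card : ℝ) / g.totient) := Finset.sum_le_sum h6
    _ = B * R.divisors.card * ∑ g ∈ (Icc 1 D).filter Squarefree,
          ((g.divisors.card : ℝ) / g.totient) := by rw [Finset.mul_sum]
    _ ≤ B * R.divisors.card * (C₂ * (1 + Real.log D) ^ 2) :=
        mul_le_mul_of_nonneg_left (h5 D hD) (by positivity)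
    _ = _ := by rw [hB]; ring

end BV

end Pool.Agent.Helper6.ER
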