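import Pool.Agent.Helper31.ER.BV
import Pool.Agent.Helper34.ER.Bilin

/-! ER-6: final form. -/

namespace Pool.Agent.Helper6.ER

open Finset

/-- ER-6 -/
theorem bv_lite : ∃ C : ℝ, 0 < C ∧ ∀ (D M X R : ℕ) (P : Finset ℕ), 1 ≤ D → 1 ≤ M → 1 ≤ R →
    16 * D ^ 2 ≤ X → (∀ p ∈ P, p.Prime ∧ D < p ∧ p ≤ X) →
    ∑ d ∈ (Icc 1 D).filter Squarefree, (1 / (d.totient : ℝ)) * EC M R P d ≤
      C * R.divisors.card * (1 + Real.log D) ^ 3 * (M : ℝ) ^ (3 / 4 : ℝ) *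
        Real.sqrt (X * P.card) := BV.bv_lite_of interval_bilinear

end Pool.Agent.Helper6.ER
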